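import Pool.Agent.Work.MP_d2308b_lc.Defs

/-!
# Boolean-valued tools: density arguments, chain condition, stabilisation.
-/

namespace Pool.MP_d2308b

open Cardinal Ordinal Set

universe u

section density

variable {B : Type u} [CompleteBooleanAlgebra B]

lemma dense_le {a b : B} (h : ∀ p, p ≠ ⊥ → p ≤ a → ∃ q, q ≠ ⊥ ∧ q ≤ p ∧ q ≤ b) : a ≤ b := by
  by_contra hab
  have h1 : a ⊓ bᶜ ≠ ⊥ := fun h0 => hab (by
    exact disjoint_compl_right_iff.1 (disjoint_iff.2 h0))
  obtain ⟨q, hq, hqp, hqb⟩ := h _ h1 inf_le_left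
  refine hq (le_bot_iff.mp ((le_inf hqb (hqp.trans inf_le_right)).trans ?_))
  simp

lemma ex_sup {ι : Sort*} {f : ι → B} {p : B} (hp : p ≠ ⊥) (h : p ≤ ⨆ i, f i) :
    ∃ i q, q ≠ ⊥ ∧ q ≤ p ∧ q ≤ f i := by
  by_contra hc
  push Not at hc
  apply hp
  have h1 : ∀ i, p ⊓ f i = ⊥ := fun i => by
    by_contra h1
    exact (hc i (p ⊓ f i) h1 inf_le_left) inf_le_right
  have h2 : p = p ⊓ ⨆ i, f i := by rw [inf_eq_left.2 h]
  rw [h2, inf_iSup_eq]
  simp [h1]

lemma le_compl_of_inf {a b : B} (h : a ⊓ b = ⊥) : a ≤ bᶜ :=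
  le_compl_iff_disjoint_right.2 (disjoint_iff.2 h)

lemma ne_bot_of_le {a b : B} (h : a ≤ b) (ha : a ≠ ⊥) : b ≠ ⊥ := fun hb => ha (le_bot_iff.1 (hb ▸ h))

end density

section CCsec

variable {B : Type u} [CompleteBooleanAlgebra B]

lemma CC.family {ρ : Cardinal.{u}} (hB : CC B ρ) {ι : Type u} (f : ι → B)
    (hf : ∀ i j, i ≠ j → f i ⊓ f j = ⊥) : #{i | f i ≠ ⊥} < ρ := by
  have h1 : InjOn f {i | f i ≠ ⊥} := by
    intro i hi j hj hij
    by_contra hne
    have := hf i j hne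
    rw [hij, inf_idem] at this
    exact hj this
  rw [← mk_image_eq_of_injOn f _ h1]
  apply hB
  · rintro _ ⟨i, hi, rfl⟩; exact hi
  · rintro _ ⟨i, hi, rfl⟩ _ ⟨j, hj, rfl⟩ hne
    exact disjoint_iff.2 (hf i j (fun h => hne (by rw [h])))

end CCsec

/-- `M` is a well-order of regular cardinal type `μ`. -/
structure RegOrd (M : Type u) [LinearOrder M] [WellFoundedLT M] (μ : Cardinal.{u}) : Prop where
  reg : μ.IsRegular
  bdd : ∀ A : Set M, #A < μ → ∃ b, ∀ a ∈ A, a < b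
  init : ∀ b : M, #(Iio b) < μ

lemma regOrd_toType {μ : Cardinal.{u}} (hμ : μ.IsRegular) : RegOrd μ.ord.ToType μ where
  reg := hμ
  init := fun b => by simpa using mk_Iio_lt b (by simp)
  bdd := by
    intro A hA
    by_contra hc
    push Not at hc
    have h1 : IsCofinal A := fun b => hc b
    have h2 : Order.cof μ.ord.ToType ≤ #A := Order.cof_le h1
    rw [cof_toType, hμ.cof_ord] at h2
    exact absurd hA (not_lt.2 h2)

namespace RegOrd

variable {M : Type u} [LinearOrder M] [WellFoundedLT M] {μ : Cardinal.{u}}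

lemma exists_gt (h : RegOrd M μ) (a : M) : ∃ b, a < b := by
  have h1 : #({a} : Set M) < μ := by
    rw [mk_singleton]
    exact lt_of_lt_of_le one_lt_aleph0 h.reg.aleph0_le
  obtain ⟨b, hb⟩ := h.bdd {a} h1
  exact ⟨b, hb a rfl⟩

lemma bdd_range (h : RegOrd M μ) {ι : Type u} (f : ι → M) (hι : #ι < μ) : ∃ b, ∀ i, f i < b := by
  obtain ⟨b, hb⟩ := h.bdd (range f) (lt_of_le_of_lt mk_range_le hι)
  exact ⟨b, fun i => hb _ ⟨i, rfl⟩⟩

end RegOrd

lemma stabilize {B : Type u} [CompleteBooleanAlgebra B] {M : Type u} [LinearOrder M]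
    [WellFoundedLT M] {μ ρ : Cardinal.{u}} (hM : RegOrd M μ) (hρ : ρ ≤ μ) (hB : CC B ρ)
    (f : M → B) (hf : Antitone f) : ∃ b, ∀ c, b ≤ c → f c = f b := by
  set d : M → B := fun x => (⨅ e : Iio x, f e) ⊓ (f x)ᶜ with hd
  have hdisj : ∀ i j, i ≠ j → d i ⊓ d j = ⊥ := by
    have key : ∀ i j, i < j → d i ⊓ d j = ⊥ := by
      intro i j hij
      have h1 : d j ≤ f i := inf_le_left.trans (iInf_le (fun e : Iio j => f e) ⟨i, hij⟩)
      have h2 : d i ≤ (f i)ᶜ := inf_le_right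
      refine le_bot_iff.1 ((inf_le_inf h2 h1).trans ?_)
      simp
    intro i j hij
    rcases lt_or_gt_of_ne hij with h | h
    · exact key i j h
    · rw [inf_comm]; exact key j i h
  obtain ⟨b, hb⟩ := hM.bdd _ ((hB.family d hdisj).trans_le hρ)
  refine ⟨b, fun c hc => le_antisymm (hf hc) ?_⟩
  induction c using WellFoundedLT.induction with
  | ind c ih =>
    rcases hc.eq_or_lt with h | h
    · rw [h]
    · have h1 : f b ≤ ⨅ e : Iio c, f e := by
        refine le_iInf fun e => ?_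
        rcases le_total b e.1 with h2 | h2
        · exact ih e.1 e.2 h2
        · exact hf h2
      have h2 : d c = ⊥ := by
        by_contra h3
        exact absurd (hb c h3) (not_lt.2 hc)
      have h3 := disjoint_compl_right_iff.1 (disjoint_iff.2 h2)
      exact h1.trans h3

end Pool.MP_d2308b
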