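import Pool.Agent.Work.MP_d2308b_lc.STree

/-!
# The number of label sequences, and the main theorem
-/

namespace Pool.MP_d2308b

open Cardinal Ordinal Set

universe u

lemma exists_Iio {lam : Cardinal.{u}} {μ : Cardinal.{u}} (hμ : μ < lam) :
    ∃ b : lam.ord.ToType, #(Iio b) = μ := by
  have h1 : μ.ord < Ordinal.type ((· < ·) : lam.ord.ToType → lam.ord.ToType → Prop) := by
    rw [type_toType]; exact ord_lt_ord.2 hμ
  obtain ⟨b, hb⟩ := Ordinal.typein_surj (r := ((· < ·) : lam.ord.ToType → lam.ord.ToType → Prop)) h1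
  refine ⟨b, ?_⟩
  have h2 := Ordinal.card_typein (r := ((· < ·) : lam.ord.ToType → lam.ord.ToType → Prop)) b
  rw [hb, card_ord] at h2
  exact h2.symm

lemma card_seq {lam : Cardinal.{u}} (h0 : ℵ₀ ≤ lam) (hpow : lam ^< lam = lam)
    {K : Type u} (hK : #K ≤ lam) : #(Σ a : lam.ord.ToType, (Iio a → K)) ≤ lam := by
  rw [mk_sigma]
  have h2 : ∀ a : lam.ord.ToType, #(Iio a → K) ≤ lam := by
    intro a
    have h3 : #(Iio a) < lam := by simpa using mk_Iio_lt a (by simp)
    rw [mk_arrow, Cardinal.lift_id, Cardinal.lift_id]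
    calc #K ^ #(Iio a) ≤ lam ^ #(Iio a) := power_le_power_right hK
      _ ≤ lam ^< lam := le_powerlt lam h3
      _ = lam := hpow
  refine (sum_le_sum _ _ h2).trans ?_
  rw [sum_const', mk_ord_toType, mul_eq_self h0]

lemma card_small {lam ρ : Cardinal.{u}} (h0 : ℵ₀ ≤ lam) (hpow : lam ^< lam = lam) (hρ : ρ ≤ lam)
    {T : Type u} (hT : #T = lam) : #(Small T ρ) ≤ lam := by
  have h1 : Function.Surjective (fun z : {z : Σ a : lam.ord.ToType, (Iio a → T) //
      #(range z.2) < ρ} => (⟨range z.1.2, z.2⟩ : Small T ρ)) := by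
    rintro ⟨A, hA⟩
    obtain ⟨b, hb⟩ := exists_Iio (hA.trans_le hρ)
    obtain ⟨e⟩ := Cardinal.eq.1 hb
    have h2 : range (fun x : Iio b => (e x).1) = A := by
      ext t; constructor
      · rintro ⟨x, rfl⟩; exact (e x).2
      · intro ht
        exact ⟨e.symm ⟨t, ht⟩, by simp⟩
    refine ⟨⟨⟨b, fun x => (e x).1⟩, ?_⟩, Subtype.ext h2⟩
    change #(range (fun x : Iio b => (e x).1)) < ρ
    rw [h2]; exact hA
  exact ((mk_le_of_surjective h1).trans (mk_subtype_le _)).trans (card_seq h0 hpow hT.le)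

lemma card_Q {lam ρ : Cardinal.{u}} (hl : ℵ₀ ≤ lam) (hpow : lam ^< lam = lam) (h0 : 0 < ρ)
    (hρ : ρ ≤ lam) {T : Type u} (hT : #T = lam) :
    #(Q lam.ord.ToType T ρ) = lam := by
  apply le_antisymm
  · let F : Q lam.ord.ToType T ρ → Σ a : lam.ord.ToType, (Iio a → Small T ρ) :=
      fun q => ⟨q.lh, fun g => q.1.2 g.1⟩
    have hF : Function.Injective F := by
      intro q q' h
      have h1 : q.lh = q'.lh := congrArg Sigma.fst h
      refine Q.ext' h1 fun g hg => ?_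
      have h2 : ∀ (z z' : Σ a : lam.ord.ToType, (Iio a → Small T ρ)), z = z' →
          ∀ (h1 : g < z.1) (h2 : g < z'.1), z.2 ⟨g, h1⟩ = z'.2 ⟨g, h2⟩ := by
        rintro z _ rfl h1 h2; rfl
      exact congrArg Subtype.val (h2 _ _ h hg (lt_of_lt_of_eq hg h1 : g < q'.lh))
    exact (mk_le_of_injective hF).trans (card_seq hl hpow (card_small hl hpow hρ hT))
  · have h1 : Function.Injective (fun a : lam.ord.ToType =>
        (Q.restr h0 (fun _ => Small.emp h0) a : Q lam.ord.ToType T ρ)) :=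
      fun a b h => congrArg Q.lh h
    have := mk_le_of_injective h1
    rwa [mk_ord_toType] at this

theorem main_aux {lam ρ : Cardinal.{u}} (hl : lam.IsRegular) (hpow : lam ^< lam = lam)
    (hρ : ρ.IsRegular) (hρl : ρ ≤ lam) (B : Type u) [CompleteBooleanAlgebra B] (hB : CC B ρ)
    (hBr : BrProp lam.ord.ToType B ρ)
    (T : Type u) (hT : #T = lam) (R : T → T → B) (hR : WideAronszajn lam.ord.ToType R) :
    ∃ (S : Type u) (R' : S → S → B), #S = lam ∧
      WideAronszajn lam.ord.ToType R' ∧ ∀ f : S → T → B, homVal R' R f = ⊥ := by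
  have h0 : 0 < ρ := lt_of_lt_of_le aleph0_pos hρ.aleph0_le
  have hΛ := regOrd_toType hl
  have hne : Nonempty lam.ord.ToType := by
    rw [nonempty_toType_iff]
    intro h
    rw [ord_eq_zero] at h
    exact absurd hl.aleph0_le (by rw [h]; exact not_le.2 aleph0_pos)
  have hnb := RS_no_branch hΛ hρ hBr hB hR
  exact ⟨Q lam.ord.ToType T ρ, RS R, card_Q hl.aleph0_le hpow h0 hρl hT,
    ⟨fun x => by
      by_contra h
      exact absurd (RS_lt h) (lt_irrefl _), RS_trans, RS_conn, RS_wf, RS_root_top h0,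
      RS_height h0 hB hR.height, hnb⟩, RS_no_hom h0 hB hnb⟩

theorem main {lam : Cardinal.{u}} (hl : lam.IsRegular) (hpow : lam ^< lam = lam)
    (B : Type u) [CompleteBooleanAlgebra B]
    (hB : (∃ ρ, ρ.IsRegular ∧ ρ < lam ∧ CC B ρ) ∨ (CC B lam ∧ TreeProp lam.ord.ToType B)) :
    NoMaximal lam B := by
  intro T R hT hR
  rcases hB with ⟨ρ, hρ, hρl, hB⟩ | ⟨hB, hTP⟩
  · exact main_aux hl hpow hρ hρl.le B hB (kurepa (regOrd_toType hl) hρ hρl hB) T hT R hR
  · refine main_aux hl hpow hl le_rfl B hB ?_ T hT R hR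
    have := brProp_of_treeProp hTP
    rwa [mk_ord_toType] at this

lemma powerlt_succ_self {κ : Cardinal.{u}} (hκ : ℵ₀ ≤ κ) (hpow : 2 ^ κ = Order.succ κ) :
    Order.succ κ ^< Order.succ κ = Order.succ κ := by
  rw [powerlt_succ (by simp), ← hpow, ← power_mul, mul_eq_self hκ]

theorem main_succ {κ : Cardinal.{u}} (hκ : ℵ₀ ≤ κ) (hpow : 2 ^ κ = Order.succ κ)
    (B : Type u) [CompleteBooleanAlgebra B]
    (hB : (∃ ρ, ρ.IsRegular ∧ ρ ≤ κ ∧ CC B ρ) ∨
      (CC B (Order.succ κ) ∧ TreeProp (Order.succ κ).ord.ToType B)) :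
    NoMaximal (Order.succ κ) B := by
  refine main (isRegular_succ hκ) (powerlt_succ_self hκ hpow) B ?_
  rcases hB with ⟨ρ, hρ, hρκ, hB⟩ | hB
  · exact Or.inl ⟨ρ, hρ, Order.lt_succ_iff.2 hρκ, hB⟩
  · exact Or.inr hB

end Pool.MP_d2308b
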