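import Mathlib

/-!
# Boolean-valued wide Aronszajn trees (definitions)

`B` is a complete Boolean algebra.  A binary relation on the (check name of the) set `T` in the
Boolean-valued model `V^B` is a function `R : T → T → B`, `R x y` being the Boolean value of
`x <_T y`.  A name for a function `X → T` is a function `f : X → T → B`, `f a x` being the Boolean
value of `f(a) = x`.
-/

namespace Pool.MP_d2308b

open Cardinal Set

universe u

variable {B : Type u} [CompleteBooleanAlgebra B] {Λ T S : Type u}

/-- The Boolean value of '`c` is a function `I → T` which is strictly increasing for the relation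
`R`' (`I` is a subset of the linear order `Λ`). -/
def incr [LinearOrder Λ] (R : T → T → B) (I : Set Λ) (c : Λ → T → B) : B :=
  (⨅ g ∈ I, ⨆ x, c g x) ⊓
  (⨅ g ∈ I, ⨅ x, ⨅ y, ⨅ (_ : x ≠ y), (c g x ⊓ c g y)ᶜ) ⊓
  (⨅ g ∈ I, ⨅ h ∈ I, ⨅ (_ : g < h), ⨅ x, ⨅ y, (c g x ⊓ c h y)ᶜ ⊔ R x y)

/-- The Boolean value of '`f` is a function `S → T` with `s <_S s' ⇒ f s <_T f s'`'. -/
def homVal (RS : S → S → B) (RT : T → T → B) (f : S → T → B) : B :=
  (⨅ s, ⨆ x, f s x) ⊓
  (⨅ s, ⨅ x, ⨅ y, ⨅ (_ : x ≠ y), (f s x ⊓ f s y)ᶜ) ⊓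
  (⨅ s, ⨅ s', ⨅ x, ⨅ y, (RS s s' ⊓ f s x ⊓ f s' y)ᶜ ⊔ RT x y)

/-- '`R` is a wide Aronszajn tree on `T`, of height the order type of `Λ`' holds in `V^B`:
`R` is a strict order in which the predecessors of each element are linearly ordered
(`conn`), which is well-founded (`wf`), which has a least element (`root`), such that for every
`a : Λ` there is an increasing sequence of order type `a + 1` (`height`), and such that there is no
increasing sequence `Λ → T` (`no_branch`). -/
structure WideAronszajn (Λ : Type u) [LinearOrder Λ] (R : T → T → B) : Prop where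
  irrefl : ∀ x, R x x = ⊥
  trans : ∀ x y z, R x y ⊓ R y z ≤ R x z
  conn : ∀ x y z, x ≠ y → R x z ⊓ R y z ≤ R x y ⊔ R y x
  wf : ∀ S : T → B, ⨆ x, S x ≤ ⨆ x, (S x ⊓ ⨅ y, (S y ⊓ R y x)ᶜ)
  root : ⨆ r, ⨅ x, ⨅ (_ : x ≠ r), R r x = ⊤
  height : ∀ a : Λ, ∃ c : Λ → T → B, incr R (Iic a) c = ⊤
  no_branch : ∀ c : Λ → T → B, incr R univ c = ⊥

/-- Every antichain of `B` (set of pairwise disjoint nonzero elements) has cardinality `< ρ`. -/
def CC (B : Type u) [CompleteBooleanAlgebra B] (ρ : Cardinal.{u}) : Prop :=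
  ∀ A : Set B, (∀ a ∈ A, a ≠ ⊥) → A.Pairwise Disjoint → #A < ρ

/-- A name for a tree whose levels are indexed by `Λ` and are small: the tree consists of the `x : U`
with value `P x`, `E` is the order, `lev x` is the level of `x`, each element has exactly one
predecessor on each lower level, and each level has fewer than `#Λ` possible elements. -/
structure LevTree {U : Type u} [LinearOrder Λ] (lev : U → Λ) (P : U → B) (E : U → U → B) :
    Prop where
  dom : ∀ x y, E x y ≤ P x ⊓ P y
  lt : ∀ x y, E x y ≠ ⊥ → lev x < lev y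
  trans : ∀ x y z, E x y ⊓ E y z ≤ E x z
  down : ∀ g y, g < lev y → P y ≤ ⨆ x : {x // lev x = g}, E x.1 y
  uniq : ∀ x x' y, x ≠ x' → lev x = lev x' → E x y ⊓ E x' y = ⊥
  small : ∀ g, #{x | lev x = g ∧ P x ≠ ⊥} < #Λ

/-- The tree property in `V^B`: for each name for a tree with small levels, the Boolean value of
'all levels are nonempty' is below the Boolean value of '`c` is an increasing sequence of order type
`Λ`' for some name `c`. -/
def TreeProp (Λ : Type u) [LinearOrder Λ] (B : Type u) [CompleteBooleanAlgebra B] : Prop :=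
  ∀ (U : Type u) (lev : U → Λ) (P : U → B) (E : U → U → B), LevTree lev P E →
    ∃ c : Λ → U → B, (⨅ g, ⨆ x : {x // lev x = g}, P x.1) ≤ incr E univ c

/-- 'There is no maximal wide Aronszajn tree of height and cardinality `lam`' holds in `V^B`, even
for strictly order preserving maps which need not be injective. -/
def NoMaximal (lam : Cardinal.{u}) (B : Type u) [CompleteBooleanAlgebra B] : Prop :=
  ∀ (T : Type u) (R : T → T → B), #T = lam → WideAronszajn lam.ord.ToType R →
    ∃ (S : Type u) (R' : S → S → B), #S = lam ∧ WideAronszajn lam.ord.ToType R' ∧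
      ∀ f : S → T → B, homVal R' R f = ⊥

end Pool.MP_d2308b
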