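import Pool.Agent.Work.MP_d2308b_lc.Basic

/-!
# A Boolean-valued Kurepa lemma: a tree with a name for a `λ`-sequence of cross-selections with
fewer than `ρ` possible values has a branch with positive Boolean value.
-/

namespace Pool.MP_d2308b

open Cardinal Ordinal Set

universe u

set_option linter.unusedSectionVars false

section incr

variable {B : Type u} [CompleteBooleanAlgebra B] {Λ T : Type u} [LinearOrder Λ]

lemma le_incr {R : T → T → B} {I : Set Λ} {c : Λ → T → B} {p : B}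
    (h1 : ∀ g ∈ I, p ≤ ⨆ x, c g x)
    (h2 : ∀ g ∈ I, ∀ x y, x ≠ y → p ⊓ c g x ⊓ c g y = ⊥)
    (h3 : ∀ g ∈ I, ∀ h ∈ I, g < h → ∀ x y, p ⊓ c g x ⊓ c h y ≤ R x y) : p ≤ incr R I c := by
  refine le_inf (le_inf ?_ ?_) ?_
  · exact le_iInf fun g => le_iInf fun hg => h1 g hg
  · refine le_iInf fun g => le_iInf fun hg => le_iInf fun x => le_iInf fun y => le_iInf fun hxy => ?_
    apply le_compl_of_inf
    rw [← inf_assoc]; exact h2 g hg x y hxy
  · refine le_iInf fun g => le_iInf fun hg => le_iInf fun h => le_iInf fun hh =>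
      le_iInf fun hgh => le_iInf fun x => le_iInf fun y => ?_
    have := h3 g hg h hh hgh x y
    rw [inf_assoc] at this
    rw [sup_comm, ← himp_eq]
    exact le_himp_iff.2 this

lemma incr_tot {R : T → T → B} {I : Set Λ} {c : Λ → T → B} {g : Λ} (hg : g ∈ I) :
    incr R I c ≤ ⨆ x, c g x :=
  (inf_le_left.trans inf_le_left).trans (iInf₂_le g hg)

lemma incr_fun {R : T → T → B} {I : Set Λ} {c : Λ → T → B} {g : Λ} (hg : g ∈ I) {x y : T}
    (hxy : x ≠ y) : incr R I c ⊓ c g x ⊓ c g y = ⊥ := by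
  have h1 : incr R I c ≤ (c g x ⊓ c g y)ᶜ :=
    (inf_le_left.trans inf_le_right).trans ((iInf₂_le g hg).trans
      ((iInf_le _ x).trans ((iInf_le _ y).trans (iInf_le _ hxy))))
  rw [inf_assoc]
  exact disjoint_iff.1 (le_compl_iff_disjoint_right.1 h1)

lemma incr_inc {R : T → T → B} {I : Set Λ} {c : Λ → T → B} {g h : Λ} (hg : g ∈ I) (hh : h ∈ I)
    (hgh : g < h) (x y : T) : incr R I c ⊓ c g x ⊓ c h y ≤ R x y := by
  have h1 : incr R I c ≤ (c g x ⊓ c h y)ᶜ ⊔ R x y :=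
    inf_le_right.trans ((iInf₂_le g hg).trans ((iInf₂_le h hh).trans ((iInf_le _ hgh).trans
      ((iInf_le _ x).trans (iInf_le _ y)))))
  rw [sup_comm, ← himp_eq] at h1
  rw [inf_assoc]
  exact le_himp_iff.1 h1

end incr

section

variable {B : Type u} [CompleteBooleanAlgebra B] {Λ T : Type u} [LinearOrder Λ] [WellFoundedLT Λ]

/-- the minimal part of `M g` -/
noncomputable def minPart (R : T → T → B) (M : Λ → T → B) (g : Λ) (x : T) : B :=
  M g x ⊓ ⨅ y, (M g y ⊓ R y x)ᶜ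

/-- the Boolean value of 'the element of `N h` below `x` is also below `x'`' -/
noncomputable def eqv (R : T → T → B) (N : Λ → T → B) (h : Λ) (x x' : T) : B :=
  ⨆ z, (N h z ⊓ R z x ⊓ R z x')

variable {R : T → T → B} {N : Λ → T → B}

lemma minPart_le (M : Λ → T → B) (g : Λ) (x : T) : minPart R M g x ≤ M g x := inf_le_left

lemma minPart_down (htr : ∀ x y z, R x y ⊓ R y z ≤ R x z)
    (hwf : ∀ S : T → B, ⨆ x, S x ≤ ⨆ x, (S x ⊓ ⨅ y, (S y ⊓ R y x)ᶜ))
    (M : Λ → T → B) (hM : ∀ g h, g < h → ∀ x, M h x ≤ ⨆ y, M g y ⊓ R y x)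
    (g h : Λ) (hgh : g < h) (x : T) : minPart R M h x ≤ ⨆ y, minPart R M g y ⊓ R y x := by
  apply dense_le
  intro p hp hpx
  obtain ⟨y, q, hq, hqp, hqy⟩ := ex_sup hp ((hpx.trans (minPart_le M h x)).trans (hM g h hgh x))
  have h1 : q ≤ ⨆ y, (q ⊓ M g y ⊓ R y x) :=
    le_iSup_of_le y (le_inf (le_inf le_rfl (hqy.trans inf_le_left)) (hqy.trans inf_le_right))
  obtain ⟨y', q', hq', hq'q, hq'y⟩ := ex_sup hq (h1.trans (hwf _))
  have h2 : q' ≤ M g y' := hq'y.trans (inf_le_left.trans (inf_le_left.trans inf_le_right))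
  have h3 : q' ≤ R y' x := hq'y.trans (inf_le_left.trans inf_le_right)
  refine ⟨q', hq', hq'q.trans hqp, le_iSup_of_le y' (le_inf (le_inf h2 (le_iInf fun z => ?_)) h3)⟩
  have h4 : q' ≤ (q ⊓ M g z ⊓ R z x ⊓ R z y')ᶜ :=
    hq'y.trans (inf_le_right.trans (iInf_le _ z))
  apply le_compl_of_inf
  have h5 : q' ⊓ (M g z ⊓ R z y') ≤ q ⊓ M g z ⊓ R z x ⊓ R z y' := by
    refine le_inf (le_inf (le_inf (inf_le_left.trans hq'q) (inf_le_right.trans inf_le_left)) ?_)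
      (inf_le_right.trans inf_le_right)
    exact (le_inf (inf_le_right.trans inf_le_right) (inf_le_left.trans h3)).trans (htr z y' x)
  have h6 := le_inf h5 (inf_le_left.trans h4)
  rw [inf_compl_self] at h6
  exact le_bot_iff.1 h6

lemma minPart_uniq (hcn : ∀ x y z, x ≠ y → R x z ⊓ R y z ≤ R x y ⊔ R y x)
    (M : Λ → T → B) (g : Λ) (x y z : T) (hxy : x ≠ y) :
    minPart R M g x ⊓ R x z ⊓ (minPart R M g y ⊓ R y z) = ⊥ := by
  have h1 : minPart R M g x ⊓ R x z ⊓ (minPart R M g y ⊓ R y z) ≤ R x y ⊔ R y x :=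
    (le_inf (inf_le_left.trans inf_le_right) (inf_le_right.trans inf_le_right)).trans
      (hcn x y z hxy)
  have h2 : minPart R M g x ⊓ R x z ⊓ (minPart R M g y ⊓ R y z) ≤ (M g x ⊓ R x y)ᶜ :=
    inf_le_right.trans (inf_le_left.trans (inf_le_right.trans (iInf_le _ x)))
  have h3 : minPart R M g x ⊓ R x z ⊓ (minPart R M g y ⊓ R y z) ≤ (M g y ⊓ R y x)ᶜ :=
    inf_le_left.trans (inf_le_left.trans (inf_le_right.trans (iInf_le _ y)))
  have h4 : minPart R M g x ⊓ R x z ⊓ (minPart R M g y ⊓ R y z) ≤ M g x :=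
    inf_le_left.trans (inf_le_left.trans inf_le_left)
  have h5 : minPart R M g x ⊓ R x z ⊓ (minPart R M g y ⊓ R y z) ≤ M g y :=
    inf_le_right.trans (inf_le_left.trans inf_le_left)
  generalize minPart R M g x ⊓ R x z ⊓ (minPart R M g y ⊓ R y z) = p at *
  have h6 : p ≤ (R x y)ᶜ := by
    apply le_compl_of_inf
    have : p ⊓ R x y ≤ (M g x ⊓ R x y) ⊓ (M g x ⊓ R x y)ᶜ :=
      le_inf (inf_le_inf h4 le_rfl) (inf_le_left.trans h2)
    rw [inf_compl_self] at this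
    exact le_bot_iff.1 this
  have h7 : p ≤ (R y x)ᶜ := by
    apply le_compl_of_inf
    have : p ⊓ R y x ≤ (M g y ⊓ R y x) ⊓ (M g y ⊓ R y x)ᶜ :=
      le_inf (inf_le_inf h5 le_rfl) (inf_le_left.trans h3)
    rw [inf_compl_self] at this
    exact le_bot_iff.1 this
  have h8 : p ≤ (R x y ⊔ R y x)ᶜ := by rw [compl_sup]; exact le_inf h6 h7
  have := le_inf h1 h8
  rw [inf_compl_self] at this
  exact le_bot_iff.1 this

/-- The hypotheses on `N` used from now on. -/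
structure Good (R : T → T → B) (N : Λ → T → B) : Prop where
  trans : ∀ x y z, R x y ⊓ R y z ≤ R x z
  down : ∀ g h, g < h → ∀ x, N h x ≤ ⨆ y, N g y ⊓ R y x
  uniq : ∀ g x y z, x ≠ y → N g x ⊓ R x z ⊓ (N g y ⊓ R y z) = ⊥

lemma Good.eq (H : Good R N) {g : Λ} {x y z : T} {p : B} (hp : p ≠ ⊥) (h1 : p ≤ N g x)
    (h2 : p ≤ R x z) (h3 : p ≤ N g y) (h4 : p ≤ R y z) : x = y := by
  by_contra hne
  have := le_inf (le_inf h1 h2) (le_inf h3 h4)
  rw [H.uniq g x y z hne] at this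
  exact hp (le_bot_iff.1 this)

lemma le_eqv {h : Λ} {x x' z : T} {p : B} (h1 : p ≤ N h z) (h2 : p ≤ R z x) (h3 : p ≤ R z x') :
    p ≤ eqv R N h x x' := le_iSup_of_le z (le_inf (le_inf h1 h2) h3)

lemma eqv_comm (h : Λ) (x x' : T) : eqv R N h x x' = eqv R N h x' x := by
  unfold eqv
  congr 1; ext z; rw [inf_assoc, inf_assoc, inf_comm (R z x)]

lemma ex_eqv {h : Λ} {x x' : T} {p : B} (hp : p ≠ ⊥) (h1 : p ≤ eqv R N h x x') :
    ∃ z q, q ≠ ⊥ ∧ q ≤ p ∧ q ≤ N h z ∧ q ≤ R z x ∧ q ≤ R z x' := by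
  obtain ⟨z, q, hq, hqp, hqz⟩ := ex_sup hp h1
  exact ⟨z, q, hq, hqp, hqz.trans (inf_le_left.trans inf_le_left),
    hqz.trans (inf_le_left.trans inf_le_right), hqz.trans inf_le_right⟩

lemma Good.ex_down (H : Good R N) {g h : Λ} (hgh : g < h) {x : T} {p : B} (hp : p ≠ ⊥)
    (h1 : p ≤ N h x) : ∃ y q, q ≠ ⊥ ∧ q ≤ p ∧ q ≤ N g y ∧ q ≤ R y x := by
  obtain ⟨z, q, hq, hqp, hqz⟩ := ex_sup hp (h1.trans (H.down g h hgh x))
  exact ⟨z, q, hq, hqp, hqz.trans inf_le_left, hqz.trans inf_le_right⟩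

lemma Good.tr (H : Good R N) {x y z : T} {p : B} (h1 : p ≤ R x y) (h2 : p ≤ R y z) :
    p ≤ R x z := (le_inf h1 h2).trans (H.trans x y z)

lemma Good.eqv_anti (H : Good R N) {g h : Λ} (hgh : g ≤ h) (x x' : T) :
    eqv R N h x x' ≤ eqv R N g x x' := by
  rcases hgh.eq_or_lt with h0 | hgh
  · rw [h0]
  apply dense_le
  intro p hp hpx
  obtain ⟨z, q, hq, hqp, h1, h2, h3⟩ := ex_eqv hp hpx
  obtain ⟨y, r, hr, hrq, h4, h5⟩ := H.ex_down hgh hq h1
  exact ⟨r, hr, hrq.trans hqp, le_eqv h4 (H.tr h5 (hrq.trans h2)) (H.tr h5 (hrq.trans h3))⟩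

/-- `Stab γ δ`: on level `δ`, being above the same element of level `γ` implies being above the
same element of each level `h < δ`. -/
def Stab (R : T → T → B) (N : Λ → T → B) (γ δ : Λ) : Prop :=
  γ < δ ∧ ∀ x x' h, γ ≤ h → h < δ → N δ x ⊓ N δ x' ⊓ eqv R N γ x x' ≤ eqv R N h x x'

lemma exists_stab {lam ρ : Cardinal.{u}} (hΛ : RegOrd Λ lam) (hρ : ρ.IsRegular) (hρl : ρ < lam)
    (hB : CC B ρ) (H : Good R N) (hN : ∀ g, #{x | N g x ≠ ⊥} < ρ) :
    ∃ γ : Λ, ∀ ε : Λ, ∃ δ, ε < δ ∧ Stab R N γ δ := by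
  by_contra hc
  push Not at hc
  choose F hF using hc
  have hP := regOrd_toType hρ
  -- the sequence
  have hstep : ∀ (ξ : ρ.ord.ToType) (ih : ∀ η, η < ξ → Λ), ∃ b : Λ, ∀ η (hη : η < ξ),
      ih η hη < b ∧ F (ih η hη) < b := by
    intro ξ ih
    have hcard : #(Iio ξ) < lam := (hP.init ξ).trans hρl
    obtain ⟨b₁, h₁⟩ := hΛ.bdd_range (fun η : Iio ξ => ih η.1 η.2) hcard
    obtain ⟨b₂, h₂⟩ := hΛ.bdd_range (fun η : Iio ξ => F (ih η.1 η.2)) hcard
    exact ⟨max b₁ b₂, fun η hη => ⟨lt_max_of_lt_left (h₁ ⟨η, hη⟩), lt_max_of_lt_right (h₂ ⟨η, hη⟩)⟩⟩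
  choose nx hnx using hstep
  let s : ρ.ord.ToType → Λ := WellFounded.fix (r := (· < ·)) wellFounded_lt nx
  have hs : ∀ ξ η, η < ξ → s η < s ξ ∧ F (s η) < s ξ := by
    intro ξ η hη
    have h1 : s ξ = nx ξ (fun η _ => s η) := WellFounded.fix_eq _ _ _
    rw [h1]
    exact hnx ξ (fun η _ => s η) η hη
  have hmono : Monotone s := fun a b hab => by
    rcases hab.eq_or_lt with h | h
    · rw [h]
    · exact (hs b a h).1.le
  have hPcard : #(ρ.ord.ToType) < lam := by rw [mk_ord_toType]; exact hρl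
  have hub : ∃ δ, ∀ ξ, s ξ < δ := hΛ.bdd_range s hPcard
  let δ := WellFounded.min (r := ((· < ·) : Λ → Λ → Prop)) wellFounded_lt {δ | ∀ ξ, s ξ < δ} hub
  have hδ : ∀ ξ, s ξ < δ := WellFounded.min_mem (r := ((· < ·) : Λ → Λ → Prop)) wellFounded_lt
    {δ | ∀ ξ, s ξ < δ} hub
  have hδmin : ∀ h, h < δ → ∃ ξ, h ≤ s ξ := by
    intro h hh
    by_contra hc
    push Not at hc
    exact WellFounded.not_lt_min (r := ((· < ·) : Λ → Λ → Prop)) wellFounded_lt
      {δ | ∀ ξ, s ξ < δ} hc hh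
  -- stabilise
  have hst : ∀ z : {x | N δ x ≠ ⊥} × {x | N δ x ≠ ⊥}, ∃ b : ρ.ord.ToType, ∀ c, b ≤ c →
      eqv R N (s c) z.1.1 z.2.1 = eqv R N (s b) z.1.1 z.2.1 := fun z =>
    stabilize hP le_rfl hB _ fun a b hab => H.eqv_anti (hmono hab) _ _
  choose b hb using hst
  have hpairs : #({x | N δ x ≠ ⊥} × {x | N δ x ≠ ⊥}) < ρ := by
    rw [mk_prod, Cardinal.lift_id]
    exact mul_lt_of_lt hρ.aleph0_le (hN δ) (hN δ)
  obtain ⟨β, hβ⟩ := hP.bdd_range b hpairs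
  obtain ⟨β', hβ'⟩ := hP.exists_gt β
  refine hF (s β) δ ((hs β' β hβ').2.trans (hδ β')) ⟨hδ β, ?_⟩
  intro x x' h hh1 hh2
  by_cases hx : N δ x = ⊥
  · simp [hx]
  by_cases hx' : N δ x' = ⊥
  · simp [hx']
  obtain ⟨ξ, hξ⟩ := hδmin h hh2
  have h1 := hb (⟨x, hx⟩, ⟨x', hx'⟩) β (hβ _).le
  have h2 := hb (⟨x, hx⟩, ⟨x', hx'⟩) (max β ξ) ((hβ _).le.trans (le_max_left _ _))
  refine inf_le_right.trans ?_
  dsimp only at h1 h2
  rw [h1, ← h2]
  exact H.eqv_anti (hξ.trans (hmono (le_max_right _ _))) x x'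

/-- The branch property used below: a good system of cross-selections with fewer than `ρ` possible
values at each level has an increasing sequence of order type `Λ` with positive Boolean value. -/
def BrProp (Λ : Type u) [LinearOrder Λ] (B : Type u) [CompleteBooleanAlgebra B]
    (ρ : Cardinal.{u}) : Prop :=
  ∀ (T : Type u) (R : T → T → B) (N : Λ → T → B), Good R N → ∀ v : B, v ≠ ⊥ →
    (∀ g, v ≤ ⨆ x, N g x) → (∀ g, #{x | N g x ≠ ⊥} < ρ) → ∃ c : Λ → T → B, incr R univ c ≠ ⊥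

theorem branch_of_good {ρ : Cardinal.{u}} (hBr : BrProp Λ B ρ)
    (htr : ∀ x y z, R x y ⊓ R y z ≤ R x z)
    (hcn : ∀ x y z, x ≠ y → R x z ⊓ R y z ≤ R x y ⊔ R y x)
    (hwf : ∀ S : T → B, ⨆ x, S x ≤ ⨆ x, (S x ⊓ ⨅ y, (S y ⊓ R y x)ᶜ))
    {v : B} (hv : v ≠ ⊥) (M : Λ → T → B) (k1 : ∀ g, v ≤ ⨆ x, M g x)
    (k2 : ∀ g, #{x | M g x ≠ ⊥} < ρ)
    (k3 : ∀ g h, g < h → ∀ x, M h x ≤ ⨆ y, M g y ⊓ R y x) :
    ∃ c : Λ → T → B, incr R univ c ≠ ⊥ := by
  have H : Good R (minPart R M) := ⟨htr, fun g h hgh x => minPart_down htr hwf M k3 g h hgh x,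
    fun g x y z hxy => minPart_uniq hcn M g x y z hxy⟩
  exact hBr T R (minPart R M) H v hv (fun g => (k1 g).trans (hwf (M g)))
    fun g => lt_of_le_of_lt (mk_le_mk_of_subset fun x hx => ne_bot_of_le (minPart_le M g x) hx) (k2 g)

theorem kurepa {lam ρ : Cardinal.{u}} (hΛ : RegOrd Λ lam) (hρ : ρ.IsRegular) (hρl : ρ < lam)
    (hB : CC B ρ) : BrProp Λ B ρ := by
  intro T R N H v hv n1 n3
  obtain ⟨γ, hγ⟩ := exists_stab hΛ hρ hρl hB H n3
  -- choice of `X δ`, `Z δ`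
  have hch : ∀ δ, γ < δ → ∃ x z, N δ x ⊓ N γ z ⊓ R z x ≠ ⊥ := by
    intro δ hδ
    obtain ⟨x, q, hq, -, hqx⟩ := ex_sup hv (n1 δ)
    obtain ⟨z, r, hr, hrq, h1, h2⟩ := H.ex_down hδ hq hqx
    exact ⟨x, z, ne_bot_of_le (le_inf (le_inf (hrq.trans hqx) h1) h2) hr⟩
  have hX : ∃ (z : T) (E : Set Λ) (X : Λ → T), (∀ a, ∃ δ ∈ E, a < δ) ∧ (∀ δ ∈ E, Stab R N γ δ) ∧
      ∀ δ ∈ E, N δ (X δ) ⊓ N γ z ⊓ R z (X δ) ≠ ⊥ := by
    by_contra hcon
    push Not at hcon
    have : Nonempty T := by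
      obtain ⟨δ, -, hst⟩ := hγ γ
      obtain ⟨x, -⟩ := hch δ hst.1
      exact ⟨x⟩
    choose! X Z hXZ using hch
    have h1 : ∀ z : {z | N γ z ≠ ⊥}, ∃ b : Λ, ∀ δ, Stab R N γ δ → Z δ = z.1 → δ ≤ b := by
      intro z
      by_contra hc
      push Not at hc
      obtain ⟨δ, hδ, h0⟩ := hcon z.1 {δ | Stab R N γ δ ∧ Z δ = z.1} X
        (fun a => by obtain ⟨δ, h1, h2, h3⟩ := hc a; exact ⟨δ, ⟨h1, h2⟩, h3⟩) (fun δ hδ => hδ.1)
      have := hXZ δ hδ.1.1
      rw [hδ.2] at this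
      exact this h0
    choose b hb using h1
    obtain ⟨β, hβ⟩ := hΛ.bdd_range b ((n3 γ).trans hρl)
    obtain ⟨δ, hδ, hst⟩ := hγ β
    have h2 := hXZ δ hst.1
    have h3 : N γ (Z δ) ≠ ⊥ := ne_bot_of_le (inf_le_left.trans inf_le_right) h2
    exact absurd (hb ⟨Z δ, h3⟩ δ hst rfl) (not_le.2 ((hβ _).trans hδ))
  obtain ⟨z, E, X, hE, hEs, hEw⟩ := hX
  set W : Λ → B := fun δ => N δ (X δ) ⊓ N γ z ⊓ R z (X δ) with hW
  -- key lemma
  have key1 : ∀ δ ∈ E, ∀ δ' ∈ E, δ < δ' → ∀ h < δ,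
      W δ ⊓ W δ' ≤ eqv R N h (X δ) (X δ') := by
    intro δ hδ δ' hδ' hlt h hh
    apply dense_le
    intro p hp hpW
    have a1 : p ≤ N δ (X δ) := hpW.trans (inf_le_left.trans (inf_le_left.trans inf_le_left))
    have a2 : p ≤ N γ z := hpW.trans (inf_le_left.trans (inf_le_left.trans inf_le_right))
    have a3 : p ≤ R z (X δ) := hpW.trans (inf_le_left.trans inf_le_right)
    have a4 : p ≤ N δ' (X δ') := hpW.trans (inf_le_right.trans (inf_le_left.trans inf_le_left))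
    have a5 : p ≤ R z (X δ') := hpW.trans (inf_le_right.trans inf_le_right)
    obtain ⟨y, q, hq, hqp, b1, b2⟩ := H.ex_down hlt hp a4
    obtain ⟨y', r, hr, hrq, c1, c2⟩ := H.ex_down (hEs δ hδ).1 hq b1
    have hrp := hrq.trans hqp
    have e1 : y' = z := H.eq hr c1 (H.tr c2 (hrq.trans b2)) (hrp.trans a2) (hrp.trans a5)
    subst e1
    have d1 : r ≤ eqv R N γ (X δ) y := le_eqv c1 (hrp.trans a3) c2
    have d2 : r ≤ eqv R N h (X δ) y := by
      rcases le_total γ h with h0 | h0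
      · exact (le_inf (le_inf (hrp.trans a1) (hrq.trans b1)) d1).trans
          ((hEs δ hδ).2 _ _ h h0 hh)
      · exact d1.trans (H.eqv_anti h0 _ _)
    obtain ⟨t, r', hr', hr'r, f1, f2, f3⟩ := ex_eqv hr d2
    exact ⟨r', hr', hr'r.trans hrp, le_eqv f1 f2 (H.tr f3 (hr'r.trans (hrq.trans b2)))⟩
  have key : ∀ δ ∈ E, ∀ δ' ∈ E, ∀ h, h < δ → h < δ' →
      W δ ⊓ W δ' ≤ eqv R N h (X δ) (X δ') := by
    intro δ hδ δ' hδ' h h1 h2
    rcases lt_trichotomy δ δ' with h3 | h3 | h3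
    · exact key1 δ hδ δ' hδ' h3 h h1
    · subst h3
      apply dense_le
      intro p hp hpW
      have a1 : p ≤ N δ (X δ) := hpW.trans (inf_le_left.trans (inf_le_left.trans inf_le_left))
      obtain ⟨y, q, hq, hqp, b1, b2⟩ := H.ex_down h1 hp a1
      exact ⟨q, hq, hqp, le_eqv b1 b2 b2⟩
    · rw [inf_comm, eqv_comm]; exact key1 δ' hδ' δ hδ h3 h h2
  -- the branch
  set f : Λ → B := fun a => ⨆ δ : {δ // δ ∈ E ∧ a < δ}, W δ.1 with hf
  have hfanti : Antitone f := by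
    intro a b hab
    exact iSup_le fun δ => le_iSup_of_le (f := fun δ : {δ // δ ∈ E ∧ a < δ} => W δ.1)
      ⟨δ.1, δ.2.1, lt_of_le_of_lt hab δ.2.2⟩ le_rfl
  obtain ⟨b, hb⟩ := stabilize hΛ hρl.le hB f hfanti
  obtain ⟨δ₀, hδ₀, hbδ₀⟩ := hE b
  have hfb : f b ≠ ⊥ := ne_bot_of_le
    (le_iSup (fun δ : {δ // δ ∈ E ∧ b < δ} => W δ.1) ⟨δ₀, hδ₀, hbδ₀⟩) (hEw δ₀ hδ₀)
  have hfle : ∀ a, f b ≤ f a := by
    intro a
    rcases le_total a b with h | h
    · exact hfanti h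
    · exact (hb a h).ge
  refine ⟨fun h t => ⨆ δ : {δ // δ ∈ E ∧ h < δ}, (W δ.1 ⊓ N h t ⊓ R t (X δ.1)),
    ne_bot_of_le (le_incr ?_ ?_ ?_) hfb⟩
  · intro h _
    refine (hfle h).trans (iSup_le fun δ => ?_)
    apply dense_le
    intro p hp hpW
    have a1 : p ≤ N δ.1 (X δ.1) := hpW.trans (inf_le_left.trans inf_le_left)
    obtain ⟨y, q, hq, hqp, b1, b2⟩ := H.ex_down δ.2.2 hp a1
    exact ⟨q, hq, hqp, le_iSup_of_le y (le_iSup_of_le δ (le_inf (le_inf (hqp.trans hpW) b1) b2))⟩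
  · intro h _ x y hxy
    by_contra hne
    obtain ⟨δ, p, hp, hp1, hp2⟩ := ex_sup hne (inf_le_left.trans inf_le_right)
    obtain ⟨δ', q, hq, hq1, hq2⟩ := ex_sup hp (hp1.trans inf_le_right)
    have hq3 := hq1.trans hp2
    have h1 := (le_inf (hq3.trans (inf_le_left.trans inf_le_left))
      (hq2.trans (inf_le_left.trans inf_le_left))).trans
      (key δ.1 δ.2.1 δ'.1 δ'.2.1 h δ.2.2 δ'.2.2)
    obtain ⟨t, r, hr, hrq, c1, c2, c3⟩ := ex_eqv hq h1
    have e1 : x = t := H.eq hr (hrq.trans (hq3.trans (inf_le_left.trans inf_le_right)))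
      (hrq.trans (hq3.trans inf_le_right)) c1 c2
    have e2 : y = t := H.eq hr (hrq.trans (hq2.trans (inf_le_left.trans inf_le_right)))
      (hrq.trans (hq2.trans inf_le_right)) c1 c3
    exact hxy (e1.trans e2.symm)
  · intro g _ h _ hgh x y
    apply dense_le
    intro p₀ hp₀ hp₀'
    obtain ⟨δ, p, hp, hp1, hp2⟩ := ex_sup hp₀ (hp₀'.trans (inf_le_left.trans inf_le_right))
    obtain ⟨δ', q, hq, hq1, hq2⟩ := ex_sup hp ((hp1.trans hp₀').trans inf_le_right)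
    have hq3 := hq1.trans hp2
    have h1 := (le_inf (hq3.trans (inf_le_left.trans inf_le_left))
      (hq2.trans (inf_le_left.trans inf_le_left))).trans
      (key δ.1 δ.2.1 δ'.1 δ'.2.1 g δ.2.2 (hgh.trans δ'.2.2))
    obtain ⟨t, r, hr, hrq, c1, c2, c3⟩ := ex_eqv hq h1
    have e1 : x = t := H.eq hr (hrq.trans (hq3.trans (inf_le_left.trans inf_le_right)))
      (hrq.trans (hq3.trans inf_le_right)) c1 c2
    obtain ⟨y', r', hr', hr'r, d1, d2⟩ := H.ex_down hgh hr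
      (hrq.trans (hq2.trans (inf_le_left.trans inf_le_right)))
    have e2 : y' = t := H.eq hr' d1
      (H.tr d2 (hr'r.trans (hrq.trans (hq2.trans inf_le_right)))) (hr'r.trans c1) (hr'r.trans c3)
    rw [e2, ← e1] at d2
    exact ⟨r', hr', hr'r.trans (hrq.trans (hq1.trans hp1)), d2⟩

/-- The tree property gives the branch property. -/
theorem brProp_of_treeProp (hTP : TreeProp Λ B) : BrProp Λ B (#Λ) := by
  classical
  intro T R N H v hv n1 n3
  let P : Λ × T → B := fun u => N u.1 u.2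
  let E : Λ × T → Λ × T → B := fun u w => if u.1 < w.1 then N u.1 u.2 ⊓ N w.1 w.2 ⊓ R u.2 w.2 else ⊥
  have hElt : ∀ u w, u.1 < w.1 → E u w = N u.1 u.2 ⊓ N w.1 w.2 ⊓ R u.2 w.2 := fun u w h => if_pos h
  have hEnl : ∀ u w, ¬ u.1 < w.1 → E u w = ⊥ := fun u w h => if_neg h
  have hER : ∀ u w, E u w ≤ R u.2 w.2 := by
    intro u w
    by_cases h : u.1 < w.1
    · rw [hElt u w h]; exact inf_le_right
    · rw [hEnl u w h]; exact bot_le
  have hL : LevTree (fun u : Λ × T => u.1) P E := by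
    refine ⟨?_, ?_, ?_, ?_, ?_, ?_⟩
    · intro x y
      by_cases h : x.1 < y.1
      · rw [hElt x y h]; exact inf_le_left
      · rw [hEnl x y h]; exact bot_le
    · intro x y hxy
      by_contra h
      exact hxy (hEnl x y h)
    · intro x y z
      by_cases h : x.1 < y.1
      · by_cases h' : y.1 < z.1
        · rw [hElt x y h, hElt y z h', hElt x z (h.trans h')]
          refine le_inf (le_inf (inf_le_left.trans (inf_le_left.trans inf_le_left))
            (inf_le_right.trans (inf_le_left.trans inf_le_right))) ?_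
          exact (le_inf (inf_le_left.trans inf_le_right) (inf_le_right.trans inf_le_right)).trans
            (H.trans _ _ _)
        · rw [hEnl y z h', inf_bot_eq]; exact bot_le
      · rw [hEnl x y h, bot_inf_eq]; exact bot_le
    · rintro g ⟨h, x⟩ hgh
      change g < h at hgh
      change N h x ≤ _
      apply dense_le
      intro p hp hpx
      obtain ⟨y, q, hq, hqp, h1, h2⟩ := H.ex_down hgh hp hpx
      refine ⟨q, hq, hqp, le_iSup_of_le ⟨(g, y), rfl⟩ ?_⟩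
      rw [hElt (g, y) (h, x) hgh]
      exact le_inf (le_inf h1 (hqp.trans hpx)) h2
    · rintro ⟨g, x⟩ ⟨g', x'⟩ ⟨h, y⟩ hne heq
      change g = g' at heq
      subst heq
      have hne' : x ≠ x' := fun h => hne (by rw [h])
      by_cases h' : g < h
      · rw [hElt (g, x) (h, y) h', hElt (g, x') (h, y) h']
        refine le_bot_iff.1 (le_trans ?_ (H.uniq g x x' y hne').le)
        exact le_inf (le_inf (inf_le_left.trans (inf_le_left.trans inf_le_left))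
          (inf_le_left.trans inf_le_right)) (le_inf (inf_le_right.trans (inf_le_left.trans
          inf_le_left)) (inf_le_right.trans inf_le_right))
      · rw [hEnl (g, x) (h, y) h', bot_inf_eq]
    · intro g
      refine lt_of_le_of_lt ?_ (n3 g)
      have aux : ∀ u : Λ × T, u.1 = g → P u ≠ ⊥ → N g u.2 ≠ ⊥ := by
        rintro ⟨g', x⟩ rfl h; exact h
      refine mk_le_of_injective (f := fun u : {x : Λ × T | x.1 = g ∧ P x ≠ ⊥} =>
        (⟨u.1.2, aux u.1 u.2.1 u.2.2⟩ : {x | N g x ≠ ⊥})) ?_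
      rintro ⟨⟨g1, x1⟩, h1, h1'⟩ ⟨⟨g2, x2⟩, h2, h2'⟩ h
      have : x1 = x2 := congrArg Subtype.val h
      simp only at h1 h2
      subst h1 h2 this
      rfl
  obtain ⟨c, hc⟩ := hTP _ _ P E hL
  have hvc : v ≤ incr E univ c := by
    refine le_trans (le_iInf fun g => ?_) hc
    refine (n1 g).trans (iSup_le fun x => ?_)
    exact le_iSup_of_le (f := fun x : {x : Λ × T // x.1 = g} => P x.1) ⟨(g, x), rfl⟩ le_rfl
  refine ⟨fun g x => ⨆ h, c g (h, x), ne_bot_of_le (le_incr (p := v) ?_ ?_ ?_) hv⟩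
  · intro g _
    refine (hvc.trans (incr_tot (mem_univ g))).trans (iSup_le fun u => ?_)
    exact le_iSup_of_le u.2 (le_iSup_of_le u.1 le_rfl)
  · intro g _ x y hxy
    by_contra hne
    obtain ⟨h, p, hp, hp1, hp2⟩ := ex_sup hne (inf_le_left.trans inf_le_right)
    obtain ⟨h', q, hq, hq1, hq2⟩ := ex_sup hp (hp1.trans inf_le_right)
    have h3 := le_inf (le_inf (((hq1.trans hp1).trans (inf_le_left.trans inf_le_left)).trans hvc)
      (hq1.trans hp2)) hq2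
    rw [incr_fun (mem_univ g) (fun h => hxy (congrArg Prod.snd h))] at h3
    exact hq (le_bot_iff.1 h3)
  · intro g _ k _ hgk x y
    apply dense_le
    intro p hp hpx
    obtain ⟨h, q, hq, hqp, hqh⟩ := ex_sup hp (hpx.trans (inf_le_left.trans inf_le_right))
    obtain ⟨h', r, hr, hrq, hrh⟩ := ex_sup hq ((hqp.trans hpx).trans inf_le_right)
    refine ⟨r, hr, hrq.trans hqp, ?_⟩
    exact (le_inf (le_inf ((((hrq.trans hqp).trans hpx).trans (inf_le_left.trans inf_le_left)).trans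
      hvc) (hrq.trans hqh)) hrh).trans ((incr_inc (mem_univ g) (mem_univ k) hgk _ _).trans
        (hER _ _))

end

end Pool.MP_d2308b
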