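import Pool.Agent.Work.MP_d2308b_lc.Tree

/-!
# The Boolean-valued tree `RS R` on the set of label sequences
-/

namespace Pool.MP_d2308b

open Cardinal Ordinal Set

universe u

set_option linter.unusedSectionVars false

variable {B : Type u} [CompleteBooleanAlgebra B] {Λ T : Type u} [LinearOrder Λ] [WellFoundedLT Λ]
  {ρ : Cardinal.{u}}

/-- The tree order: below the root everything is isolated except the label sequences along which
`R` has increasing selections. -/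
noncomputable def RS (R : T → T → B) (q q' : Q Λ T ρ) : B :=
  open Classical in
  if IsBot q.lh ∧ ¬ IsBot q'.lh then ⊤ else if q.sub q' then mval R q' else ⊥

variable {R : T → T → B}

lemma RS_root {q q' : Q Λ T ρ} (h1 : IsBot q.lh) (h2 : ¬ IsBot q'.lh) : RS R q q' = ⊤ := by
  unfold RS; rw [if_pos ⟨h1, h2⟩]

lemma mval_le_RS {q q' : Q Λ T ρ} (h : q.sub q') : mval R q' ≤ RS R q q' := by
  unfold RS
  by_cases h1 : IsBot q.lh ∧ ¬ IsBot q'.lh
  · rw [if_pos h1]; exact le_top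
  · rw [if_neg h1, if_pos h]

lemma not_isBot_of_lt {a b : Λ} (h : a < b) : ¬ IsBot b := fun hb => absurd h (not_lt.2 (hb a))

lemma RS_lt {q q' : Q Λ T ρ} (h : RS R q q' ≠ ⊥) : q.lh < q'.lh := by
  unfold RS at h
  by_cases h1 : IsBot q.lh ∧ ¬ IsBot q'.lh
  · refine lt_of_le_of_ne (h1.1 _) fun h2 => h1.2 (h2 ▸ h1.1)
  · rw [if_neg h1] at h
    by_cases h2 : q.sub q'
    · exact h2.1
    · rw [if_neg h2] at h; exact absurd rfl h

lemma RS_sub {q q' : Q Λ T ρ} (hq : ¬ IsBot q.lh) (h : RS R q q' ≠ ⊥) : q.sub q' := by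
  unfold RS at h
  rw [if_neg (fun h1 => hq h1.1)] at h
  by_cases h2 : q.sub q'
  · exact h2
  · rw [if_neg h2] at h; exact absurd rfl h

lemma RS_le_mval {q q' : Q Λ T ρ} (hq : ¬ IsBot q.lh) : RS R q q' ≤ mval R q' := by
  unfold RS
  rw [if_neg (fun h1 => hq h1.1)]
  by_cases h2 : q.sub q'
  · rw [if_pos h2]
  · rw [if_neg h2]; exact bot_le

lemma root_uniq {q q' : Q Λ T ρ} (h1 : IsBot q.lh) (h2 : IsBot q'.lh) : q = q' :=
  Q.ext' (le_antisymm (h1 _) (h2 _)) fun g hg => absurd hg (not_lt.2 (h1 g))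

lemma RS_trans (x y z : Q Λ T ρ) : RS R x y ⊓ RS R y z ≤ RS R x z := by
  apply dense_le
  intro p hp hpx
  refine ⟨p, hp, le_rfl, ?_⟩
  have h1 : RS R x y ≠ ⊥ := ne_bot_of_le (hpx.trans inf_le_left) hp
  have h2 : RS R y z ≠ ⊥ := ne_bot_of_le (hpx.trans inf_le_right) hp
  have h3 := RS_lt h1
  have h4 := RS_lt h2
  by_cases hx : IsBot x.lh
  · rw [RS_root hx (not_isBot_of_lt h4)]; exact le_top
  · have h5 := RS_sub hx h1
    have hy := not_isBot_of_lt h3
    have h6 := RS_sub hy h2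
    exact ((hpx.trans inf_le_right).trans (RS_le_mval hy)).trans (mval_le_RS (Q.sub_trans h5 h6))

lemma RS_conn (x y z : Q Λ T ρ) (hxy : x ≠ y) : RS R x z ⊓ RS R y z ≤ RS R x y ⊔ RS R y x := by
  apply dense_le
  intro p hp hpx
  refine ⟨p, hp, le_rfl, ?_⟩
  have h1 : RS R x z ≠ ⊥ := ne_bot_of_le (hpx.trans inf_le_left) hp
  have h2 : RS R y z ≠ ⊥ := ne_bot_of_le (hpx.trans inf_le_right) hp
  by_cases hx : IsBot x.lh
  · have hy : ¬ IsBot y.lh := fun hy => hxy (root_uniq hx hy)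
    rw [RS_root hx hy]; simp
  by_cases hy : IsBot y.lh
  · rw [RS_root hy hx]; simp
  have h3 := RS_sub hx h1
  have h4 := RS_sub hy h2
  have h5 : p ≤ mval R z := (hpx.trans inf_le_left).trans (RS_le_mval hx)
  rcases Q.sub_conn h3 h4 with h | h | h
  · exact (h5.trans ((mval_anti R h4).trans (mval_le_RS h))).trans le_sup_left
  · exact absurd h hxy
  · exact (h5.trans ((mval_anti R h3).trans (mval_le_RS h))).trans le_sup_right

lemma RS_wf (S : Q Λ T ρ → B) : ⨆ x, S x ≤ ⨆ x, (S x ⊓ ⨅ y, (S y ⊓ RS R y x)ᶜ) := by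
  apply dense_le
  intro p hp hpS
  set A : Set Λ := {a | ∃ (x : Q Λ T ρ) (q : B), x.lh = a ∧ q ≠ ⊥ ∧ q ≤ p ∧ q ≤ S x} with hA
  have hne : A.Nonempty := by
    obtain ⟨x, q, hq, hqp, hqx⟩ := ex_sup hp hpS
    exact ⟨x.lh, x, q, rfl, hq, hqp, hqx⟩
  obtain ⟨x, q, hx, hq, hqp, hqx⟩ := WellFounded.min_mem (r := ((· < ·) : Λ → Λ → Prop))
    wellFounded_lt A hne
  refine ⟨q, hq, hqp, le_iSup_of_le x (le_inf hqx (le_iInf fun y => le_compl_of_inf ?_))⟩
  by_contra hc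
  have h1 : RS R y x ≠ ⊥ := ne_bot_of_le (inf_le_right.trans inf_le_right) hc
  have h2 := RS_lt h1
  rw [hx] at h2
  exact WellFounded.not_lt_min (r := ((· < ·) : Λ → Λ → Prop)) wellFounded_lt A
    ⟨y, _, rfl, hc, inf_le_left.trans hqp, inf_le_right.trans inf_le_left⟩ h2

lemma RS_root_top (h0 : 0 < ρ) [Nonempty Λ] :
    ⨆ r : Q Λ T ρ, ⨅ x, ⨅ (_ : x ≠ r), RS R r x = ⊤ := by
  obtain ⟨a₀, ha₀⟩ : ∃ a₀ : Λ, IsBot a₀ := by
    refine ⟨WellFounded.min (r := ((· < ·) : Λ → Λ → Prop)) wellFounded_lt univ ⟨Classical.arbitrary _, trivial⟩, fun b => ?_⟩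
    exact not_lt.1 (WellFounded.not_lt_min (r := ((· < ·) : Λ → Λ → Prop)) wellFounded_lt univ
      (mem_univ b))
  have hr : IsBot (Q.restr h0 (fun _ => Small.emp h0) a₀ : Q Λ T ρ).lh := ha₀
  refine top_le_iff.1 (le_iSup_of_le (Q.restr h0 (fun _ => Small.emp h0) a₀) ?_)
  refine le_iInf fun x => le_iInf fun hx => ?_
  rw [RS_root hr (fun h => hx (root_uniq h hr))]

lemma le_mval_restr (h0 : 0 < ρ) {φ : B} (s : Λ → Small T ρ) (b : Λ) (f : Λ → T → B)
    (h1 : ∀ g < b, ∀ x, φ ⊓ f g x ≠ ⊥ → x ∈ (s g).1)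
    (h2 : ∀ g < b, φ ≤ ⨆ x, f g x)
    (h3 : ∀ g h, g < h → h < b → ∀ x y, φ ⊓ f g x ⊓ f h y ≤ R x y) :
    φ ≤ mval R (Q.restr h0 s b) := by
  have hE := lemmaE (R := R) (s := fun g => (s g).1) (I := Iio b)
    (fun g hg h hh => lt_trans hh hg) (φ := φ) (f := f) h1 h2
    (fun g _ h hh hgh x y => h3 g h hgh hh x y)
  refine le_iInf fun g => ?_
  have hg : g.1 < b := g.2
  apply dense_le
  intro p hp hpφ
  obtain ⟨x, q, hq, hqp, hqx⟩ := ex_sup hp (hpφ.trans (h2 g.1 hg))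
  refine ⟨q, hq, hqp, le_iSup_of_le x ?_⟩
  rw [G_congr R (s' := fun g => (s g).1) g.1
    (fun k hk => Q.restr_sq h0 s (lt_of_le_of_lt hk hg)) x]
  exact (le_inf (hqp.trans hpφ) hqx).trans (hE g.1 hg x)

lemma le_incr_RS (h0 : 0 < ρ) {φ : B} (s : Λ → Small T ρ) (I : Set Λ)
    (h : ∀ g ∈ I, φ ≤ mval R (Q.restr h0 s g)) :
    φ ≤ incr (RS R) I (open Classical in fun g q => if q = Q.restr h0 s g then ⊤ else ⊥) := by
  classical
  refine le_incr ?_ ?_ ?_
  · intro g _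
    exact le_iSup_of_le (Q.restr h0 s g) (by rw [if_pos rfl]; exact le_top)
  · intro g _ x y hxy
    by_cases hx : x = Q.restr h0 s g
    · rw [if_neg (fun hy => hxy (hx.trans hy.symm) : ¬ y = Q.restr h0 s g)]
      simp
    · rw [if_neg hx]; simp
  · intro g _ k hk hgk x y
    by_cases hx : x = Q.restr h0 s g
    · by_cases hy : y = Q.restr h0 s k
      · subst hx hy
        exact (inf_le_left.trans inf_le_left).trans ((h k hk).trans
          (mval_le_RS (Q.restr_sub h0 s hgk)))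
      · rw [if_neg hy]; simp
    · rw [if_neg hx]; simp

lemma small_supp (hB : CC B ρ) {φ : B} (f : T → B) (hf : ∀ x y, x ≠ y → φ ⊓ f x ⊓ f y = ⊥) :
    #{x | φ ⊓ f x ≠ ⊥} < ρ := by
  refine hB.family (fun x => φ ⊓ f x) fun x y hxy => ?_
  refine le_bot_iff.1 (le_trans ?_ (hf x y hxy).le)
  exact le_inf inf_le_left (inf_le_right.trans inf_le_right)

lemma RS_height (h0 : 0 < ρ) (hB : CC B ρ) (hT : ∀ a : Λ, ∃ c : Λ → T → B, incr R (Iic a) c = ⊤)
    (a : Λ) : ∃ c : Λ → Q Λ T ρ → B, incr (RS R) (Iic a) c = ⊤ := by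
  classical
  obtain ⟨c, hc⟩ := hT a
  have hsm : ∀ g ≤ a, #{x | (⊤ : B) ⊓ c g x ≠ ⊥} < ρ := fun g hg =>
    small_supp hB _ fun x y hxy => by
      have := incr_fun (R := R) (I := Iic a) (c := c) (g := g) hg hxy
      rw [hc] at this; exact this
  let s : Λ → Small T ρ := fun g => if hg : g ≤ a then ⟨_, hsm g hg⟩ else Small.emp h0
  refine ⟨_, top_le_iff.1 (le_incr_RS h0 s (Iic a) fun b hb => le_mval_restr h0 s b c ?_ ?_ ?_)⟩
  · intro g hg x hx
    have hga : g ≤ a := hg.le.trans hb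
    simp only [s, dif_pos hga]
    exact hx
  · intro g hg
    rw [← hc]
    exact incr_tot (hg.le.trans hb)
  · intro g k hgk hkb x y
    rw [← hc]
    have hk : k ≤ a := hkb.le.trans hb
    exact incr_inc (I := Iic a) (g := g) (h := k) (hgk.le.trans hk) hk hgk x y

lemma RS_no_branch {lam : Cardinal.{u}} (hΛ : RegOrd Λ lam) (hρ : ρ.IsRegular)
    (hBr : BrProp Λ B ρ) (hB : CC B ρ) (hT : WideAronszajn Λ R) (c : Λ → Q Λ T ρ → B) :
    incr (RS R) univ c = ⊥ := by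
  classical
  by_contra hv
  set v := incr (RS R) univ c with hvdef
  have ctot : ∀ g, v ≤ ⨆ q, c g q := fun g => incr_tot (mem_univ g)
  have cfun : ∀ g x y, x ≠ y → v ⊓ c g x ⊓ c g y = ⊥ := fun g x y h => incr_fun (mem_univ g) h
  have cinc : ∀ g h, g < h → ∀ x y, v ⊓ c g x ⊓ c h y ≤ RS R x y := fun g h hgh x y =>
    incr_inc (mem_univ g) (mem_univ h) hgh x y
  have f4 : ∀ h q, v ⊓ c h q ≠ ⊥ → h ≤ q.lh := by
    intro h
    induction h using WellFoundedLT.induction with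
    | ind h ih =>
      intro q hq
      by_contra hlt
      push Not at hlt
      obtain ⟨q', p, hp, hp1, hp2⟩ := ex_sup hq (inf_le_left.trans (ctot q.lh))
      have h1 : v ⊓ c q.lh q' ≠ ⊥ := ne_bot_of_le (le_inf (hp1.trans inf_le_left) hp2) hp
      have h2 := ih q.lh hlt q' h1
      have h3 : RS R q' q ≠ ⊥ := ne_bot_of_le ((le_inf (le_inf (hp1.trans inf_le_left) hp2)
        (hp1.trans inf_le_right)).trans (cinc _ _ hlt q' q)) hp
      exact absurd (RS_lt h3) (not_lt.2 h2)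
  have f5 : ∀ h q, v ⊓ c h q ≤ mval R q := by
    intro h q
    obtain ⟨k, hk⟩ := hΛ.exists_gt h
    apply dense_le
    intro p hp hpq
    obtain ⟨q', p', hp', hp1, hp2⟩ := ex_sup hp ((hpq.trans inf_le_left).trans (ctot k))
    have h1 : p' ≤ RS R q q' := (le_inf (hp1.trans hpq) hp2).trans (cinc h k hk q q')
    refine ⟨p', hp', hp1, ?_⟩
    by_cases hq : IsBot q.lh
    · exact le_iInf fun g => absurd g.2 (not_lt.2 (hq g.1))
    · exact (h1.trans (RS_le_mval hq)).trans (mval_anti R (RS_sub hq (ne_bot_of_le h1 hp')))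
  -- the cross-selections
  let M : Λ → T → B := fun g x => ⨆ h : Λ, ⨆ q : {q : Q Λ T ρ // g < q.lh},
    (v ⊓ c h q.1 ⊓ G R q.1.sq g x)
  have k1 : ∀ g, v ≤ ⨆ x, M g x := by
    intro g
    obtain ⟨h, hh⟩ := hΛ.exists_gt g
    apply dense_le
    intro p hp hpv
    obtain ⟨q, p', hp', hp1, hp2⟩ := ex_sup hp (hpv.trans (ctot h))
    have h1 : p' ≤ v ⊓ c h q := le_inf (hp1.trans hpv) hp2
    have h2 : g < q.lh := lt_of_lt_of_le hh (f4 h q (ne_bot_of_le h1 hp'))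
    have h3 : p' ≤ ⨆ x, G R q.sq g x := (h1.trans (f5 h q)).trans (iInf_le _ (⟨g, h2⟩ : Iio q.lh))
    obtain ⟨x, p'', hp'', hp3, hp4⟩ := ex_sup hp' h3
    exact ⟨p'', hp'', hp3.trans hp1, le_iSup_of_le x (le_iSup_of_le h
      (le_iSup_of_le ⟨q, h2⟩ (le_inf (hp3.trans h1) hp4)))⟩
  have k2 : ∀ g, #{x | M g x ≠ ⊥} < ρ := by
    intro g
    let β : Small T ρ → B := fun A => ⨆ h : Λ, ⨆ q : {q : Q Λ T ρ // g < q.lh ∧ q.1.2 g = A},
      (v ⊓ c h q.1)
    have hβ : ∀ A A', A ≠ A' → β A ⊓ β A' = ⊥ := by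
      intro A A' hAA
      by_contra hne
      obtain ⟨h, p, hp, hp1, hp2⟩ := ex_sup hne inf_le_left
      obtain ⟨⟨q, hq1, hq2⟩, p', hp', hp3, hp4⟩ := ex_sup hp hp2
      obtain ⟨h', r, hr, hr1, hr2⟩ := ex_sup hp' ((hp3.trans hp1).trans inf_le_right)
      obtain ⟨⟨q', hq1', hq2'⟩, r', hr', hr3, hr4⟩ := ex_sup hr hr2
      have a1 : r' ≤ v ⊓ c h q := (hr3.trans hr1).trans hp4
      have a2 : r' ≤ v ⊓ c h' q' := hr4
      have key : ∀ (h h' : Λ) (q q' : Q Λ T ρ), g < q.lh → h < h' → r' ≤ v ⊓ c h q →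
          r' ≤ v ⊓ c h' q' → q.1.2 g = q'.1.2 g := by
        intro h h' q q' hq hh b1 b2
        have h1 : RS R q q' ≠ ⊥ := ne_bot_of_le ((le_inf b1 (b2.trans inf_le_right)).trans
          (cinc h h' hh q q')) hr'
        exact Subtype.ext ((RS_sub (not_isBot_of_lt hq) h1).2 g hq)
      rcases lt_trichotomy h h' with h1 | h1 | h1
      · exact hAA (hq2 ▸ hq2' ▸ key h h' q q' hq1 h1 a1 a2)
      · subst h1
        have : q = q' := by
          by_contra hqq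
          have := le_inf a1 (a2.trans inf_le_right)
          rw [cfun h q q' hqq] at this
          exact hr' (le_bot_iff.1 this)
        subst this
        exact hAA (hq2 ▸ hq2' ▸ rfl)
      · exact hAA (hq2 ▸ hq2' ▸ (key h' h q' q hq1' h1 a2 a1).symm)
    have h1 : #{A | β A ≠ ⊥} < ρ := hB.family β hβ
    have h2 : {x | M g x ≠ ⊥} ⊆ ⋃ A : {A | β A ≠ ⊥}, A.1.1 := by
      intro x hx
      obtain ⟨h, p, hp, hp1, hp2⟩ := ex_sup (f := fun h : Λ => ⨆ q : {q : Q Λ T ρ // g < q.lh},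
        (v ⊓ c h q.1 ⊓ G R q.1.sq g x)) hx le_rfl
      obtain ⟨⟨q, hq⟩, p', hp', hp3, hp4⟩ := ex_sup hp hp2
      have h3 : G R q.sq g x ≠ ⊥ := ne_bot_of_le (hp4.trans inf_le_right) hp'
      have h4 : p' ≤ β (q.1.2 g) := le_iSup_of_le h
        (le_iSup_of_le (f := fun q' : {q' : Q Λ T ρ // g < q'.lh ∧ q'.1.2 g = q.1.2 g} =>
          v ⊓ c h q'.1) ⟨q, hq, rfl⟩ (hp4.trans inf_le_left))
      have h5 : x ∈ q.sq g := G_mem h3
      exact mem_iUnion.2 ⟨⟨q.1.2 g, ne_bot_of_le h4 hp'⟩, h5⟩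
    refine lt_of_le_of_lt (mk_le_mk_of_subset h2) ?_
    rw [card_iUnion_lt_iff_forall_of_isRegular hρ h1]
    exact fun A => A.1.2
  have k3 : ∀ g h, g < h → ∀ x, M h x ≤ ⨆ y, M g y ⊓ R y x := by
    intro g h hgh x
    refine iSup_le fun k => iSup_le fun q => ?_
    apply dense_le
    intro p hp hpq
    obtain ⟨y, p', hp', hp1, hp2⟩ := ex_sup hp ((hpq.trans inf_le_right).trans
      (G_down R q.1.sq hgh x))
    refine ⟨p', hp', hp1, le_iSup_of_le y (le_inf (le_iSup_of_le k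
      (le_iSup_of_le (f := fun q : {q : Q Λ T ρ // g < q.lh} => v ⊓ c k q.1 ⊓ G R q.1.sq g y)
        ⟨q.1, hgh.trans q.2⟩ (le_inf ((hp1.trans hpq).trans inf_le_left) (hp2.trans inf_le_left))))
      (hp2.trans inf_le_right))⟩
  obtain ⟨c', hc'⟩ := branch_of_good hBr hT.trans hT.conn hT.wf hv M k1 k2 k3
  exact hc' (hT.no_branch c')

lemma homVal_tot {S T : Type u} {RS' : S → S → B} {R : T → T → B} {F : S → T → B} (s : S) :
    homVal RS' R F ≤ ⨆ x, F s x := (inf_le_left.trans inf_le_left).trans (iInf_le _ s)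

lemma homVal_fun {S T : Type u} {RS' : S → S → B} {R : T → T → B} {F : S → T → B} (s : S)
    {x y : T} (hxy : x ≠ y) : homVal RS' R F ⊓ F s x ⊓ F s y = ⊥ := by
  have h1 : homVal RS' R F ≤ (F s x ⊓ F s y)ᶜ := (inf_le_left.trans inf_le_right).trans
    ((iInf_le _ s).trans ((iInf_le _ x).trans ((iInf_le _ y).trans (iInf_le _ hxy))))
  rw [inf_assoc]
  exact disjoint_iff.1 (le_compl_iff_disjoint_right.1 h1)

lemma homVal_inc {S T : Type u} {RS' : S → S → B} {R : T → T → B} {F : S → T → B} (s s' : S)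
    (x y : T) : homVal RS' R F ⊓ (RS' s s' ⊓ F s x ⊓ F s' y) ≤ R x y := by
  have h1 : homVal RS' R F ≤ (RS' s s' ⊓ F s x ⊓ F s' y)ᶜ ⊔ R x y :=
    inf_le_right.trans ((iInf_le _ s).trans ((iInf_le _ s').trans ((iInf_le _ x).trans
      (iInf_le _ y))))
  rw [sup_comm, ← himp_eq] at h1
  exact le_himp_iff.1 h1

lemma RS_no_hom (h0 : 0 < ρ) (hB : CC B ρ)
    (hnb : ∀ c : Λ → Q Λ T ρ → B, incr (RS R) univ c = ⊥) (F : Q Λ T ρ → T → B) :
    homVal (RS R) R F = ⊥ := by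
  classical
  set φ := homVal (RS R) R F with hφ
  have hsm : ∀ q, #{x | φ ⊓ F q x ≠ ⊥} < ρ := fun q =>
    small_supp hB _ fun x y hxy => homVal_fun q hxy
  obtain ⟨s, hs⟩ := Q.exists_rec h0 (fun q => (⟨_, hsm q⟩ : Small T ρ))
  have hm : ∀ g, φ ≤ mval R (Q.restr h0 s g) := by
    intro g
    induction g using WellFoundedLT.induction with
    | ind g ih =>
      refine le_mval_restr h0 s g (fun h x => F (Q.restr h0 s h) x) ?_ ?_ ?_
      · intro h _ x hx
        rw [hs h]; exact hx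
      · intro h _; exact homVal_tot _
      · intro h k hhk hkg x y
        refine le_trans ?_ (homVal_inc (RS' := RS R) (R := R) (F := F) (Q.restr h0 s h)
          (Q.restr h0 s k) x y)
        refine le_inf (inf_le_left.trans inf_le_left) (le_inf (le_inf ?_
          (inf_le_left.trans inf_le_right)) inf_le_right)
        exact (inf_le_left.trans inf_le_left).trans ((ih k hkg).trans
          (mval_le_RS (Q.restr_sub h0 s hhk)))
  have h1 := le_incr_RS h0 s univ fun g _ => hm g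
  rw [hnb] at h1
  exact le_bot_iff.1 h1

end Pool.MP_d2308b
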