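import Pool.Agent.Work.MP_d2308b_lc.Kurepa

/-!
# The tree of label sequences
-/

namespace Pool.MP_d2308b

open Cardinal Ordinal Set

universe u

set_option linter.unusedSectionVars false

/-- Subsets of `T` of cardinality `< ρ`. -/
abbrev Small (T : Type u) (ρ : Cardinal.{u}) : Type u := {A : Set T // #A < ρ}

/-- the empty set -/
def Small.emp {T : Type u} {ρ : Cardinal.{u}} (h0 : 0 < ρ) : Small T ρ := ⟨∅, by simpa using h0⟩

/-- Label sequences: pairs `(a, s)`, `a : Λ` is the length, `s : Λ → Small T ρ` is empty from `a`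
on. -/
def Q (Λ T : Type u) [LinearOrder Λ] (ρ : Cardinal.{u}) : Type u :=
  {p : Λ × (Λ → Small T ρ) // ∀ g, ¬ g < p.1 → (p.2 g).1 = ∅}

variable {B : Type u} [CompleteBooleanAlgebra B] {Λ T : Type u} [LinearOrder Λ] [WellFoundedLT Λ]
  {ρ : Cardinal.{u}}

/-- length -/
def Q.lh (q : Q Λ T ρ) : Λ := q.1.1

/-- labels -/
def Q.sq (q : Q Λ T ρ) (g : Λ) : Set T := (q.1.2 g).1

lemma Q.sq_lt (q : Q Λ T ρ) (g : Λ) : #(q.sq g) < ρ := (q.1.2 g).2

lemma Q.ext' {q q' : Q Λ T ρ} (h1 : q.lh = q'.lh) (h2 : ∀ g, g < q.lh → q.sq g = q'.sq g) :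
    q = q' := by
  apply Subtype.ext
  apply Prod.ext
  · exact h1
  · funext g
    apply Subtype.ext
    by_cases hg : g < q.lh
    · exact h2 g hg
    · rw [q.2 g hg, q'.2 g (by intro h; exact hg (by rw [h1]; exact h))]

/-- the initial-segment order -/
def Q.sub (q q' : Q Λ T ρ) : Prop := q.lh < q'.lh ∧ ∀ g, g < q.lh → q.sq g = q'.sq g

lemma Q.sub_trans {q r t : Q Λ T ρ} (h1 : q.sub r) (h2 : r.sub t) : q.sub t :=
  ⟨h1.1.trans h2.1, fun g hg => (h1.2 g hg).trans (h2.2 g (hg.trans h1.1))⟩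

lemma Q.sub_conn {q r t : Q Λ T ρ} (h1 : q.sub t) (h2 : r.sub t) : q.sub r ∨ q = r ∨ r.sub q := by
  have key : ∀ q r : Q Λ T ρ, q.sub t → r.sub t → q.lh < r.lh → q.sub r := fun q r h1 h2 h3 =>
    ⟨h3, fun g hg => (h1.2 g hg).trans (h2.2 g (hg.trans h3)).symm⟩
  rcases lt_trichotomy q.lh r.lh with h | h | h
  · exact Or.inl (key q r h1 h2 h)
  · exact Or.inr (Or.inl (Q.ext' h fun g hg => (h1.2 g hg).trans (h2.2 g (h ▸ hg)).symm))
  · exact Or.inr (Or.inr (key r q h2 h1 h))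

/-- restriction of a full label sequence -/
def Q.restr (h0 : 0 < ρ) (s : Λ → Small T ρ) (a : Λ) : Q Λ T ρ :=
  ⟨(a, fun g => open Classical in if g < a then s g else Small.emp h0),
    fun g hg => by
      have hg' : ¬ g < a := hg
      simp only [if_neg hg']
      rfl⟩

@[simp] lemma Q.restr_lh (h0 : 0 < ρ) (s : Λ → Small T ρ) (a : Λ) : (Q.restr h0 s a).lh = a := rfl

lemma Q.restr_sq (h0 : 0 < ρ) (s : Λ → Small T ρ) {a g : Λ} (hg : g < a) :
    (Q.restr h0 s a).sq g = (s g).1 := by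
  unfold Q.sq Q.restr
  simp only [if_pos hg]

lemma Q.restr_sub (h0 : 0 < ρ) (s : Λ → Small T ρ) {a b : Λ} (h : a < b) :
    (Q.restr h0 s a).sub (Q.restr h0 s b) :=
  ⟨h, fun g hg => by
    have hg' : g < a := hg
    rw [Q.restr_sq h0 s hg', Q.restr_sq h0 s (hg'.trans h)]⟩

lemma Q.exists_rec (h0 : 0 < ρ) (A : Q Λ T ρ → Small T ρ) :
    ∃ s : Λ → Small T ρ, ∀ g, s g = A (Q.restr h0 s g) := by
  classical
  let F : ∀ g : Λ, (∀ h, h < g → Small T ρ) → Small T ρ := fun g ih =>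
    A ⟨(g, fun h => if hh : h < g then ih h hh else Small.emp h0),
      fun h hh => by
        have hh' : ¬ h < g := hh
        simp only [dif_neg hh']
        rfl⟩
  refine ⟨WellFounded.fix (r := (· < ·)) wellFounded_lt F, fun g => ?_⟩
  rw [WellFounded.fix_eq]
  refine congrArg A (Q.ext' rfl ?_)
  intro h hh
  change h < g at hh
  rw [Q.restr_sq h0 _ hh]
  unfold Q.sq
  simp only [dif_pos hh]

/-- The Boolean value of '`x ∈ s g`, and for each `h < g` there is `y` with the same property at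
`h` and `y < x`'. -/
noncomputable def G (R : T → T → B) (s : Λ → Set T) : Λ → T → B :=
  WellFounded.fix (r := (· < ·)) wellFounded_lt
    (fun g (ih : ∀ h, h < g → T → B) x => ⨆ (_ : x ∈ s g), ⨅ h : Iio g, ⨆ y, ih h.1 h.2 y ⊓ R y x)

lemma G_eq (R : T → T → B) (s : Λ → Set T) (g : Λ) (x : T) :
    G R s g x = ⨆ (_ : x ∈ s g), ⨅ h : Iio g, ⨆ y, G R s h y ⊓ R y x := by
  conv_lhs => unfold G
  rw [WellFounded.fix_eq]
  rfl

lemma G_congr (R : T → T → B) {s s' : Λ → Set T} (g : Λ) (h : ∀ k, k ≤ g → s k = s' k) (x : T) :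
    G R s g x = G R s' g x := by
  induction g using WellFoundedLT.induction generalizing x with
  | ind g ih =>
    rw [G_eq, G_eq, h g le_rfl]
    have : ∀ k : Iio g, ∀ y, G R s k y = G R s' k y := fun k y =>
      ih k.1 k.2 (fun j hj => h j (hj.trans (le_of_lt k.2))) y
    simp only [this]

lemma G_mem {R : T → T → B} {s : Λ → Set T} {g : Λ} {x : T} (h : G R s g x ≠ ⊥) : x ∈ s g := by
  by_contra hc
  apply h
  rw [G_eq]
  simp [hc]

lemma G_down (R : T → T → B) (s : Λ → Set T) {g h : Λ} (hgh : g < h) (x : T) :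
    G R s h x ≤ ⨆ y, G R s g y ⊓ R y x := by
  rw [G_eq R s h]
  exact iSup_le fun _ => iInf_le (fun k : Iio h => ⨆ y, G R s k y ⊓ R y x) ⟨g, hgh⟩

/-- the Boolean value of 'there is a selection of each length along `q`' -/
noncomputable def mval (R : T → T → B) (q : Q Λ T ρ) : B :=
  ⨅ g : Iio q.lh, ⨆ x, G R q.sq g x

lemma mval_anti (R : T → T → B) {q q' : Q Λ T ρ} (h : q.sub q') : mval R q' ≤ mval R q := by
  refine le_iInf fun g => ?_
  refine (iInf_le _ (⟨g.1, lt_trans g.2 h.1⟩ : Iio q'.lh)).trans (le_of_eq ?_)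
  congr 1
  funext x
  exact (G_congr R g.1 (fun k hk => h.2 k (lt_of_le_of_lt hk g.2)) x).symm

lemma lemmaE {R : T → T → B} {s : Λ → Set T} {I : Set Λ} (hI : ∀ g ∈ I, ∀ h, h < g → h ∈ I)
    {φ : B} {f : Λ → T → B} (h1 : ∀ g ∈ I, ∀ x, φ ⊓ f g x ≠ ⊥ → x ∈ s g)
    (h2 : ∀ g ∈ I, φ ≤ ⨆ x, f g x)
    (h3 : ∀ g ∈ I, ∀ h ∈ I, g < h → ∀ x y, φ ⊓ f g x ⊓ f h y ≤ R x y) :
    ∀ g ∈ I, ∀ x, φ ⊓ f g x ≤ G R s g x := by
  intro g
  induction g using WellFoundedLT.induction with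
  | ind g ih =>
    intro hg x
    by_cases hx : φ ⊓ f g x = ⊥
    · rw [hx]; exact bot_le
    rw [G_eq]
    refine le_iSup_of_le (h1 g hg x hx) (le_iInf fun h => ?_)
    apply dense_le
    intro p hp hpx
    obtain ⟨y, q, hq, hqp, hqy⟩ := ex_sup hp (hpx.trans (inf_le_left.trans (h2 h.1 (hI g hg _ h.2))))
    refine ⟨q, hq, hqp, le_iSup_of_le y (le_inf ?_ ?_)⟩
    · exact (le_inf ((hqp.trans hpx).trans inf_le_left) hqy).trans
        (ih h.1 h.2 (hI g hg _ h.2) y)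
    · exact (le_inf (le_inf ((hqp.trans hpx).trans inf_le_left) hqy)
        ((hqp.trans hpx).trans inf_le_right)).trans (h3 h.1 (hI g hg _ h.2) g hg h.2 y x)

end Pool.MP_d2308b
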